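import Pool.Agent.Lib.F4P.Out
import Pool.Agent.Lib.F4H.Defs
import Pool.Agent.Lib.NU4.Blue

/-! Project f4p: the two cases. -/

noncomputable section

namespace Pool.Agent.Lib.F4P

open Pool.Agent.Lib.SV (E)
open Pool.Agent.Lib.HS32 Pool.Agent.Lib.F4

theorem ind {n : ℕ} {M : Mf n} {V W : M.Fam (E n)} (h : ¬Zr M fun e z => wg (V e z) (W e z)) :
    Ind M V W := fun s t k => by
  refine by_contra fun c => h fun e he z hz => Matrix.ext fun i j => ?_
  have k1 := congrFun (k e he z hz) i
  have k2 := congrFun (k e he z hz) j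
  simp only [Pi.add_apply, Pi.smul_apply, smul_eq_mul, Pi.zero_apply] at k1 k2
  simp only [wg, Matrix.of_apply, Matrix.zero_apply]
  rcases not_and_or.1 c with c | c
  · exact mul_left_cancel₀ c (by linear_combination W e z j * k1 - W e z i * k2)
  · exact mul_left_cancel₀ c (by linear_combination V e z i * k2 - V e z j * k1)

theorem mp_of (hO : St_OUZ) (hN : NU4.St_MAIN) (hU : F4H.St_NU1) : St_MP := by
  intro M _ H S V W hH hn _ q0 hS nS hV hW nz
  refine by_contra fun no => ?_
  obtain ⟨a, ha⟩ := hO 4 M H hH hn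
  exact no (hU M H S V W hH hn (hN M H a V W hH hn ha
    (fun m m0 t t1 => by_contra fun c => no ⟨m, m0, t, t1, c⟩) hV hW nz) q0 hS nS hV hW (ind nz))

end Pool.Agent.Lib.F4P
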