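import Pool.Agent.Lib.F4P.SDefs
import Pool.Agent.Lib.F4P.Mp
import Pool.Agent.Lib.K3E.B_ALT

/-! Project f4p: the statement with the square of the canonical class. -/

open scoped Classical Topology ContDiff ComplexOrder Matrix Manifold
open Set Filter MeasureTheory

noncomputable section

namespace Pool.Agent.Lib.F4P

open Pool.Agent.Lib.SV (E Pluri Cells)
open Pool.Agent.Lib.HS32 Pool.Agent.Lib.GH Pool.Agent.Lib.F4
open Pool.Agent.Lib.HW (CanNef)
open Pool.Agent.Lib.HS.BBR (mf)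
open Pool.Agent.Lib.RB.R32 (fam)
open Pool.Agent.Lib.F4G (Plu)

/-- The theorem. -/
def St_F4Q : Prop := ∀ (X : Type) [TopologicalSpace X] [ChartedSpace (E 4) X]
  [IsManifold 𝓘(ℂ, E 4) ω X] [CompactSpace X] [T2Space X] [ConnectedSpace X] (G : X → Mat 4),
  Kaehler G → CanNef G → (∀ ρ ∈ TF 4 X 1 0, ρ = 0) → (∃ σ ∈ TF 4 X 2 0, σ ≠ 0) →
  (∃ m, 0 < m ∧ ∃ s ∈ Pluri 4 X m, s ≠ 0) ∨ KSq G ∧
    (∃ η ∈ TF 4 X 3 0, ∃ θ ∈ TF 4 X 3 0, LinearIndependent ℂ ![η, θ]) ∧
      ∀ η ∈ TF 4 X 3 0, ∀ θ ∈ TF 4 X 3 0, ∀ x, ¬LinearIndependent ℂ ![η x, θ x]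

namespace KSQ

variable {n : ℕ} {X : Type} [TopologicalSpace X] [ChartedSpace (E n) X]

theorem cells [CompactSpace X] :
    ∃ (r : ℕ) (x : Fin r → X) (B : Fin r → Set (E n)), Cells x B := by
  obtain ⟨t, ht⟩ := isCompact_univ.elim_finite_subcover (fun x : X => (chartAt (E n) x).source)
    (fun x => (chartAt (E n) x).open_source) fun x _ => mem_iUnion.2 ⟨x, mem_chart_source _ x⟩
  let x : Fin t.card → X := fun k => t.equivFin.symm k
  let c := fun k => chartAt (E n) (x k)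
  refine ⟨_, x, fun k => (c k).target \ ((c k).target ∩ (c k).symm ⁻¹' ⋃ j < k, (c j).source),
    fun k => (c k).open_target.measurableSet.diff ((c k).continuousOn_symm.isOpen_inter_preimage
      (c k).open_target (isOpen_iUnion fun j => isOpen_iUnion fun _ =>
        (c j).open_source)).measurableSet, fun k => sdiff_subset, fun y => ?_⟩
  have h1 : ∀ k, y ∈ (c k).symm '' ((c k).target \ ((c k).target ∩ (c k).symm ⁻¹'
      ⋃ j < k, (c j).source)) ↔ y ∈ (c k).source ∧ ∀ j < k, y ∉ (c j).source := fun k => by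
    refine ⟨?_, fun h => ⟨c k y, ⟨(c k).map_source h.1, fun d => ?_⟩, (c k).left_inv h.1⟩⟩
    · rintro ⟨z, ⟨z1, z2⟩, rfl⟩
      exact ⟨(c k).map_target z1, fun j hj d => z2 ⟨z1, mem_iUnion₂.2 ⟨j, hj, d⟩⟩⟩
    · obtain ⟨j, hj, d⟩ := mem_iUnion₂.1 d.2
      rw [(c k).left_inv h.1] at d
      exact h.2 j hj d
  obtain ⟨a, ha, hy⟩ := mem_iUnion₂.1 (ht (mem_univ y))
  obtain ⟨k, k1, k2⟩ := wellFounded_lt.has_min {k | y ∈ (c k).source}
    ⟨t.equivFin ⟨a, ha⟩, by simpa [c, x] using hy⟩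
  refine ⟨k, (h1 k).2 ⟨k1, fun j hj d => k2 j d hj⟩, fun j hj => ?_⟩
  exact le_antisymm (not_lt.1 fun d => ((h1 j).1 hj).2 k d k1) (not_lt.1 (k2 j ((h1 j).1 hj).1))

/-- The integral as a sum over the cells. -/
theorem sum (M : Mf n) [M.Cpt] {H : M.Fam (Mat n)} (hH : M.Met H) {r : ℕ} (e : Fin r → M.Ch)
    (B : Fin r → Set (E n)) (he : ∀ k, e k ∈ M.C) (h1 : ∀ k, MeasurableSet (B k))
    (h2 : ∀ k, B k ⊆ (e k).target) (h3 : ∀ y, ∃! k, y ∈ (e k).symm '' B k) {f : M.X → ℝ}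
    (hf : Continuous f) :
    ∫ y, f y ∂M.mu H = ∑ k, ∫ z in B k, (H (e k) z).det.re * f ((e k).symm z) := by
  obtain ⟨-, -, -, -, m5, m6, -⟩ := mMU n M H hH
  have u : ⋃ k, (e k).symm '' B k = univ := eq_univ_of_forall fun y => mem_iUnion.2 (h3 y).exists
  rw [← setIntegral_univ, ← u, integral_iUnion_fintype (fun k => (m6 _ (he k) _ (h1 k) (h2 k)).1)
    (fun a b hab => disjoint_left.2 fun y ha hb => hab ((h3 y).unique ha hb))
    fun k => (m5 ℝ f hf).integrableOn]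
  exact Finset.sum_congr rfl fun k _ => (m6 _ (he k) _ (h1 k) (h2 k)).2.2.1 f

theorem ksq [IsManifold 𝓘(ℂ, E n) ω X] [CompactSpace X] [T2Space X] [ConnectedSpace X]
    {G : X → Mat n} (hG : Kaehler G) (h : 0 < F4H.k2 (mf n X) (fam G)) : KSq G := by
  let M : Mf n := mf n X
  have : M.Cpt := ⟨‹_›, ‹_›, ‹_›⟩
  let c : M.X → M.Ch := chartAt (M := X) (E n)
  have hc : ∀ x, c x ∈ M.C := HW.ch_mem (X := X)
  have hs : ∀ x, x ∈ (c x).source := mem_chart_source (M := X) (E n)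
  have hk : M.Kae (fam G) := HW.kae hG
  have hf : M.Clo (-M.ric (fam G)) := ((mHES n M).2.2.2.2.2.2.2.2.1 _ hk.toMet).neg
  have e0 : ∀ x, fam G (c x) (c x x) = G x := fun x => by
    have := (mTR n M).2.2.1 _ (hc x) x (hs x)
    rw [Mf.J] at this
    simp only [fam, (c x).left_inv (hs x)]
    erw [this]
    simp
  obtain ⟨r, x, B, ce⟩ := cells (n := n) (X := X)
  obtain ⟨i1, i2, -⟩ := (mINV n M _ hk.toMet).1 _ hf.toTen
  obtain ⟨i3, i4, -⟩ := (mINV n M _ hk.toMet).2.2.1 _ _ hf.toTen hf.toTen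
  refine ⟨fun y : M.X => (-M.ric (fam G)) (c y) (c y y), r, x, B, ce, fun (y : M.X) => ?_,
    h.trans_eq ((sum M hk.toMet (fun k => c (x k)) B (fun k => hc _) ce.meas ce.sub ce.part
      ((i2.continuous.mul i2.continuous).sub i4.continuous)).trans
        (Finset.sum_congr rfl fun k _ => integral_congr_ae (ae_of_all _ fun z => ?_)))⟩
  · have hz := (c y).map_source (hs y)
    refine ⟨hf.herm _ (hc y) _ hz, fun v => ?_⟩
    refine (HW.levi_eq ((mCOF n _ _ (hk.sm _ (hc y) _ hz)).2.2.2.2.2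
      (Mf.AllOn.ev hk.pos (hc y) hz)).2.1 v).trans (congrArg (nq · v) (neg_neg _).symm)
  · obtain ⟨y, hy⟩ : ∃ y : M.X, (c (x k)).symm z = y := ⟨_, rfl⟩
    have a1 := i1.at (hc y) (hs y)
    have a2 := i3.at (hc y) (hs y)
    simp only [e0] at a1 a2
    change (fam G (c (x k)) z).det.re * (M.tr _ _ ((c (x k)).symm z) * M.tr _ _ ((c (x k)).symm z) -
      M.ip _ _ _ ((c (x k)).symm z)) = (fam G (c (x k)) z).det.re *
        (((G ((c (x k)).symm z))⁻¹ * (-M.ric (fam G)) (c ((c (x k)).symm z))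
          (c ((c (x k)).symm z) ((c (x k)).symm z))).trace.re ^ 2 -
        ((G ((c (x k)).symm z))⁻¹ * (-M.ric (fam G)) (c ((c (x k)).symm z))
          (c ((c (x k)).symm z) ((c (x k)).symm z)) * ((G ((c (x k)).symm z))⁻¹ *
            (-M.ric (fam G)) (c ((c (x k)).symm z))
          (c ((c (x k)).symm z) ((c (x k)).symm z)))).trace.re)
    rw [hy, a1, a2, sq, Matrix.mul_assoc (_ * _)]

end KSQ

namespace DIC

open G72 OUT

/-- The components of a form of degree three. -/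
def iv : (E 4 [⋀^Fin 3]→ₗ[ℂ] ℂ) →ₗ[ℂ] E 4 where
  toFun β i := β fun l => Pi.single (i.succAbove l) 1
  map_add' _ _ := rfl
  map_smul' _ _ := rfl

theorem iv_inj : Function.Injective iv := (injective_iff_map_eq_zero _).2 fun β h =>
  AlternatingMap.ext fun v => by
    obtain ⟨k, hk⟩ := (K3E.bALT 4 3).2.1 v
    refine (hk _).trans (Finset.sum_eq_zero fun B _ => mul_eq_zero_of_right _ ?_)
    rw [K3E.cmpt]
    split_ifs with c
    · obtain ⟨i, hi⟩ := Finset.card_eq_one.1 (show Bᶜ.card = 1 by simp [Finset.card_compl, c])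
      rw [← Finset.orderEmbOfFin_unique c (f := i.succAbove) (fun l => by_contra fun d =>
        i.succAbove_ne l (Finset.mem_singleton.1 (hi ▸ Finset.mem_compl.2 d)))
        (Fin.strictMono_succAbove i)]
      exact congrFun h i
    · rfl

theorem ex : ∃ T : E 4 →L[ℂ] E 4, ∀ β, m3 (n := 3) (T (iv β)) = β := by
  let A : E 4 →ₗ[ℂ] E 4 := iv ∘ₗ (Matrix.detRowAlternating (n := Fin 4) (R := ℂ)).curryLeft
  have i : Function.Injective A := (injective_iff_map_eq_zero _).2 fun u h =>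
    m3_inj (iv_inj (h.trans (map_zero _).symm))
  exact ⟨LinearMap.toContinuousLinearMap (LinearEquiv.ofInjectiveEndo A i).symm.toLinearMap,
    fun β => iv_inj ((LinearEquiv.ofInjectiveEndo A i).apply_symm_apply (iv β))⟩

theorem m3_law (J : Mat 4) (u : E 4) (v : Fin 3 → E 4) :
    m3 (n := 3) (J *ᵥ u) (fun i => J *ᵥ v i) = m3 (n := 3) u v * J.det := by
  rw [m3_ap, m3_ap, ← Matrix.det_transpose J, ← Matrix.det_mul]
  refine congrArg _ (Matrix.ext fun l j => Fin.cases ?_ (fun l => ?_) l) <;>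
    simp [Matrix.mul_apply, Matrix.mulVec, dotProduct, mul_comm]

variable {X : Type} [TopologicalSpace X] [ChartedSpace (E 4) X] [IsManifold 𝓘(ℂ, E 4) ω X]

theorem dic {η : X → E 4 [⋀^Fin 3]→ₗ[ℂ] ℂ} (h : η ∈ TF 4 X 3 0) :
    ∃ V, HT (mf 4 X) 1 V ∧ fo V = η := by
  let M : Mf 4 := mf 4 X
  let c : M.X → M.Ch := chartAt (M := X) (E 4)
  have hc : ∀ x, c x ∈ M.C := HW.ch_mem (X := X)
  have hs : ∀ x, x ∈ (c x).source := mem_chart_source (M := X) (E 4)
  obtain ⟨-, hov, hone, -⟩ := mTR 4 M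
  obtain ⟨T, hT⟩ := ex
  let V : M.Fam (E 4) := fun e z => T (iv ((η (e.symm z)).compLinearMap
    (M.J (c (e.symm z)) e (e.symm z)).mulVecLin))
  have v1 : ∀ e x, x ∈ e.source → ∀ v, m3 (n := 3) (V e (e x)) v =
      η x fun i => M.J (c x) e x *ᵥ v i := fun e x hx v => by
    simp only [V, hT, e.left_inv hx]
    rfl
  have cmp : M.Ov fun e e' x => M.J e e' x *ᵥ V e' (e' x) = jd M e e' x ^ (1 : ℤ) • V e (e x) :=
    fun e he e' he' x hx hx' => by
      obtain ⟨-, -, j1, -⟩ := hov e he e' he' x hx hx'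
      have := m3_lin 1 (-jd M e e' x) (M.J e e' x *ᵥ V e' (e' x)) (V e (e x))
      rw [one_smul, neg_smul, ← sub_eq_add_neg] at this
      rw [zpow_one]
      refine sub_eq_zero.1 (m3_inj (this.trans (AlternatingMap.ext fun v => ?_)))
      have k := m3_law (M.J e e' x) (V e' (e' x)) fun i => M.J e' e x *ᵥ v i
      simp only [Matrix.mulVec_mulVec, j1, Matrix.one_mulVec, v1 e' x hx',
        ← (hov _ (hc x) e' he' x (hs x) hx').2.2.2.2 e he hx] at k
      simp only [AlternatingMap.add_apply, AlternatingMap.smul_apply, AlternatingMap.zero_apply,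
        one_smul, k, v1 e x hx, smul_eq_mul, jd]
      ring
  have d0 : ∀ x, DifferentiableAt ℂ (V (c x)) (c x x) := fun x => by
    refine (T.differentiableAt.comp _ (differentiableAt_pi.2 fun i =>
      h x fun l => Pi.single (i.succAbove l) 1)).congr_of_eventuallyEq ?_
    filter_upwards [(c x).open_target.mem_nhds ((c x).map_source (hs x))] with w hw
    refine congrArg T (funext fun i => ?_)
    beta_reduce
    rw [pow_zero, mul_one, Mf.J, (c x).right_inv hw]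
    rfl
  have d1 : M.All fun e z => DifferentiableAt ℂ (V e) z := fun e he z hz => by
    obtain ⟨x, hx, rfl⟩ : ∃ x ∈ e.source, e x = z := ⟨_, e.map_target hz, e.right_inv hz⟩
    obtain ⟨t1, t2, -, t3, -⟩ := hov _ (hc x) e he x (hs x) hx
    have a1 : DifferentiableAt ℂ (fun w => V (c x) ((c x ∘ e.symm) w)) (e x) :=
      DifferentiableAt.comp (g := V (c x)) (f := c x ∘ e.symm) _ (by
        rw [Function.comp_apply, e.left_inv hx]
        exact d0 x) t1.self_of_nhds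
    have a2 : ∀ i j, DifferentiableAt ℂ (fun w => jm (c x ∘ e.symm) w i j) (e x) := fun i j =>
      (((mHOL 4 _ _).2.2 (BCHN.hol_comp t1 i)).2.1 j).self_of_nhds.congr_of_eventuallyEq
        (BCHN.jm_ev mHOL t1 i j)
    have a3 : ∀ i j, DifferentiableAt ℂ (fun w => (jm (c x ∘ e.symm) w).adjugate i j) (e x) :=
      fun i j => by
        simp only [Matrix.adjugate_apply, Matrix.det_apply', Matrix.updateRow_apply]
        refine DifferentiableAt.fun_sum fun q _ => (differentiableAt_const _).mul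
          (HasFDerivAt.finsetProd fun l _ => DifferentiableAt.hasFDerivAt ?_).differentiableAt
        split_ifs
        exacts [differentiableAt_const _, a2 _ _]
    refine (differentiableAt_pi.2 fun i => DifferentiableAt.fun_sum (u := Finset.univ) fun j _ =>
      (a3 i j).mul (differentiableAt_pi.1 a1 j)).congr_of_eventuallyEq ?_
    filter_upwards [t3] with w hw
    obtain ⟨w1, w2, w3, -, -, w4, w5⟩ := hw
    have k := congrArg ((M.J (c x) e (e.symm w)).adjugate *ᵥ ·) (cmp _ (hc x) e he _ w2 w3)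
    simp only [Matrix.mulVec_mulVec, Matrix.adjugate_mul, Matrix.smul_mulVec, Matrix.one_mulVec,
      Matrix.mulVec_smul, zpow_one, w4] at k
    have k2 := smul_right_injective _ (hov _ (hc x) e he _ w2 w3).2.1 k
    rw [w5] at k2
    exact k2
  refine ⟨V, ⟨fun e he z hz i => (d1.ev he hz).mono fun w hw => differentiableAt_pi.1 hw i, cmp⟩,
    funext fun (y : M.X) => AlternatingMap.ext fun v => (v1 _ y (hs y) v).trans ?_⟩
  simp only [hone _ (hc y) y (hs y), Matrix.one_mulVec]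

theorem dep {V W : (mf 4 X).Fam (E 4)} (h : Zr (mf 4 X) fun e z => wg (V e z) (W e z)) (x : X) :
    ¬LinearIndependent ℂ ![fo V x, fo W x] := fun k => by
  obtain ⟨s, t, k1, k2⟩ := OUT.dep (h _ (HW.ch_mem x) _
    ((chartAt (E 4) x).map_source (mem_chart_source _ x)))
  exact k2 (LinearIndependent.pair_iff.1 k s t ((m3_lin s t _ _).symm.trans
    ((congrArg _ k1).trans (map_zero _))))

theorem ind {V W : (mf 4 X).Fam (E 4)} (hV : HT (mf 4 X) 1 V) (hW : HT (mf 4 X) 1 W)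
    (hI : Ind (mf 4 X) V W) : LinearIndependent ℂ ![fo V, fo W] := by
  let M : Mf 4 := mf 4 X
  let c : M.X → M.Ch := chartAt (M := X) (E 4)
  have hc : ∀ x, c x ∈ M.C := HW.ch_mem (X := X)
  have hs : ∀ x, x ∈ (c x).source := mem_chart_source (M := X) (E 4)
  refine LinearIndependent.pair_iff.2 fun s t k => hI s t fun e he z hz => ?_
  have k1 := m3_inj ((m3_lin s t _ _).trans (congrFun k (e.symm z)))
  have k2 := hV.cmp e he _ (hc _) _ (e.map_target hz) (hs _)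
  have k3 := hW.cmp e he _ (hc _) _ (e.map_target hz) (hs _)
  have k4 := congrArg (M.J e (c (e.symm z)) (e.symm z) *ᵥ ·) k1
  simp only [Matrix.mulVec_add, Matrix.mulVec_smul, Matrix.mulVec_zero] at k4
  beta_reduce at k2 k3
  rw [e.right_inv hz, zpow_one] at k2 k3
  refine (smul_eq_zero.1 ?_).resolve_left
    ((mTR _ _).2.1 e he _ (hc _) _ (e.map_target hz) (hs _)).2.1
  rw [smul_add, smul_comm _ s, smul_comm _ t]
  exact (congrArg₂ (fun a b => s • a + t • b) k2 k3).symm.trans k4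

end DIC

theorem f4q_of (hO : St_OUZ) (hM : NU4.St_MAIN) (hU : F4H.St_NU1) (hK : St_KBM) (hF : St_FH)
    (hV : St_VW) (hE : K3E.St_MER) : St_F4Q := by
  intro X _ _ _ _ _ _ G hG hN h1 ⟨σ, s1, s2⟩
  have : (mf 4 X).Cpt := ⟨‹_›, ‹_›, ‹_›⟩
  refine or_iff_not_imp_left.2 fun hP => ?_
  have hH := HW.kae hG
  have hN' := HW.nef hG hN
  have no : ¬Plu (mf 4 X) := fun ⟨m, m0, t, t1, t2⟩ =>
    hP ⟨m, m0, (hE 4 X).2 m t t1 (by_contra fun c => t2 fun e he z hz =>
      by_contra fun d => c ⟨e, he, z, hz, d⟩)⟩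
  have q0 : ∀ ρ, H1 (mf 4 X) 0 ρ → Zr (mf 4 X) ρ := fun ρ h => by_contra fun c =>
    (G72.t1 (a := 0) h c).elim fun t ht => ht.2.1 (h1 t ht.1)
  obtain ⟨x₀⟩ : Nonempty X := inferInstance
  obtain ⟨S, V, W, a1, a2, a3, a4, a5⟩ := hV _ _ hH
    (by_contra fun c => no (hK 4 _ _ four_pos hH hN' c)) q0 (hF 4 X _ 2 2 rfl σ s1 s2)
    (hF 4 X _ 0 4 rfl (fun _ => AlternatingMap.constOfIsEmpty ℂ _ _ 1) (fun x v => by simp)
      fun c => one_ne_zero (α := ℂ) (congrArg (fun β => β x₀ 0) c))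
  have k : ¬F4H.k2 (mf 4 X) (fam G) ≤ 0 := fun c =>
    no (hU _ _ S V W hH hN' c q0 a1 a2 a3 a4 a5)
  obtain ⟨a, ha⟩ := hO 4 _ _ hH hN'
  refine ⟨KSQ.ksq hG (not_le.1 k), ⟨_, OUT.fo_mem a3, _, OUT.fo_mem a4, DIC.ind a3 a4 a5⟩,
    fun η h θ h' => ?_⟩
  obtain ⟨Y, y, rfl⟩ := DIC.dic h
  obtain ⟨Z, z, rfl⟩ := DIC.dic h'
  exact DIC.dep (by_contra fun c => k (hM _ _ a Y Z hH hN' ha
    (fun m m0 t t1 => by_contra fun c => no ⟨m, m0, t, t1, c⟩) y z c))

end Pool.Agent.Lib.F4P
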