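import Pool.Agent.Lib.F4.O_KBM
import Pool.Agent.Lib.F4G.Blue

/-! Without pluricanonical forms, the tensors of a fixed order vanish at high level. -/

open scoped Classical Topology Matrix
open Set Filter

noncomputable section

namespace Pool.Agent.Lib.F4P

open Pool.Agent.Lib.SV (E)
open Pool.Agent.Lib.HS32 Pool.Agent.Lib.HLK Pool.Agent.Lib.KT
open Pool.Agent.Lib.RAA (kp kq)
open Pool.Agent.Lib.K3E (Tw)
open Pool.Agent.Lib.F4G (Plu)

variable {n : ℕ} {M : Mf n}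

open Pool.Agent.Lib.NV5.CRMb (mn) in
open CRM in
theorem crm {q : ℕ} (h : {a | ∃ s : M.Fam ((Fin q → Fin n) → ℂ),
      Tw M (fun e e' x => kp q (M.J e e' x)) a s}.Infinite) :
    ∃ (N : ℕ) (a : ℕ → ℕ) (s : ℕ → M.Fam ((Fin N → Fin n) → ℂ)), Pro N a s := by
  choose! W hW using fun a (ha : a ∈ {a | ∃ s : M.Fam ((Fin q → Fin n) → ℂ),
    Tw M (fun e e' x => kp q (M.J e e' x)) a s}) => ha
  obtain ⟨r, S, α, h1, h2, h3⟩ := NV5.CRMb.main
    (X := {p : M.Ch × E n // p.1 ∈ M.C ∧ p.2 ∈ p.1.target}) _ h (fun p a => W a p.1.1 p.1.2)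
    (fun a ha => by
      obtain ⟨e, he, z, hz, k⟩ := (hW a ha).nz
      obtain ⟨j, hj⟩ := Function.ne_iff.1 k
      exact ⟨⟨(e, z), he, hz⟩, j, hj⟩) 0
  have hS : ∀ i, Nat.nth (· ∈ S) i ∈ S := Nat.nth_mem_of_infinite h1
  refine ⟨r * q, Nat.nth (· ∈ S),
    fun i e z K => mn (fun b => W b e z) (α (Nat.nth (· ∈ S) i)) (cur n r q K),
    ⟨Nat.nth_strictMono h1, fun i => ?_,
      fun i j e he z hz I I' => h3 _ (hS i) _ (hS j) ⟨(e, z), he, hz⟩ _ _⟩⟩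
  obtain ⟨-, k1, k2, p, I, k3⟩ := h2 _ (hS i)
  refine ⟨fun e he z hz I => ?_, ⟨_, p.2.1, _, p.2.2, fun c => k3 ?_⟩,
    fun e he e' he' x hx hx' => funext fun I => ?_⟩
  · have : ∀ᶠ w in 𝓝 z, ∀ l j, DifferentiableAt ℂ (fun y => W (α _ l) e y j) w :=
      eventually_all.2 fun l => eventually_all.2 fun j => (hW _ (k1 l)).hol e he z hz j
    filter_upwards [this] with w hw
    simp only [mn, Matrix.det_apply', Matrix.of_apply]
    exact DifferentiableAt.fun_sum fun q _ => (differentiableAt_const _).mul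
      (HasFDerivAt.finsetProd fun l _ => (hw (q l) _).hasFDerivAt).differentiableAt
  · have := congrFun c ((cur n r q).symm I)
    simpa only [Equiv.apply_symm_apply, Pi.zero_apply] using this
  · refine (K3E.CRK.law (kp q (M.J e e' x)) (fun b => ((M.J e e' x).det ^ b)⁻¹) _
      (fun b => W b e' (e' x)) _ (fun l => (hW _ (k1 l)).cmp e he e' he' x hx hx') _).trans ?_
    rw [Finset.prod_inv_distrib, Finset.prod_pow_eq_pow_sum, k2, ← (cur n r q).sum_comp]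
    simp only [← kp_cur]
    rfl

open Pool.Agent.Lib.KH Pool.Agent.Lib.KBE Pool.Agent.Lib.KC Pool.Agent.Lib.KA in
theorem core (hA : HS.St_AUBIN) (hPSI : KT.St_PSI) (hST1 : St_ST1) (hBS : St_BS)
    (hCHG : KT.St_CHG) (hSYS : St_SYS) (hMOD : St_MOD) (hRK : St_RK) (hFIB : St_FIB)
    (hRAT : KT.St_RAT) (hVAL : St_VAL) (hEX1 : St_EX1) (hFIN : KT.St_FIN) (hEF : St_EF)
    (hFG : St_FG) (hHYP : St_HYP) (hEQA : St_EQA) (hDGA : St_DGA) (hCUA : St_CUA) (hG : St_GMK)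
    (hTOP : KC.St_TOP) [M.Cpt] (D : K3S.Dk M Empty) {N : ℕ} {a : ℕ → ℕ}
    {s : ℕ → M.Fam ((Fin N → Fin n) → ℂ)} (h1 : Pro N a s) :
    ∃ m, 0 < m ∧ ∃ t, M.HSec m t ∧ ∃ e ∈ M.C, ∃ z ∈ e.target, t e z ≠ 0 := by
  have hH := D.kae.toMet
  obtain ⟨b₀, h3⟩ := hPSI n M D.H N a s hH h1
  obtain ⟨A, F, _, _, ev, b, G, c, k1, k2, k3, k4, k5, k6, k7⟩ := hST1 n M D.H b₀ D.kae
  obtain ⟨B, ⟨b', ok, rfl⟩, x, x0, g, g1, g2⟩ := top hEF hFG hHYP hEQA hDGA hCUA hG hTOP k5 k7 k6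
    (fun B => ∃ (b' : Ba M D.H) (ok : b'.Ok), b'.bs ok = B) fun τ _ g => by
      obtain ⟨b', q, m, c1, c2, c3⟩ := hCHG n M D.H A F ev b G τ g hH k1 k4 k6
      obtain ⟨G', c4, -⟩ := hSYS n M D.H A F ev b' hH k1
      obtain ⟨c5, c6, c7⟩ := c3 G' c4
      obtain ⟨R, fn, md⟩ := hMOD n M D.H A F ev b' G' hH k1 c4 fun f => by
        obtain ⟨a, r, r1, r2, r3⟩ := k6 f
        exact ⟨a, r, c6 _ _ r1, r2, c6 _ _ r3⟩
      have ok := hBS n M D.H b' D.kae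
      exact ⟨b'.bs ok, b'.fd ok md, q, m, c2, c5, c6, c7, good hA hRK hFIB hRAT hVAL hEX1 D k1
        (fun y _ k => k.elim) ok md, b', ok, rfl⟩
  exact ⟨_, Nat.mul_pos x0 b'.d0, hFIN n M D.H b' x g hH g1 g2⟩

/-- Tensors of order `q`. -/
theorem inf_k [M.Cpt] {H : M.Fam (Mat n)} (hn : 0 < n) (hH : M.Kae H) (hN : W86.Nef M H)
    (np : ¬Plu M) (q : ℕ) : {a | ∃ s : M.Fam ((Fin q → Fin n) → ℂ),
      Tw M (fun e e' x => kp q (M.J e e' x)) a s}.Finite := by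
  have kit := tKIT
  have ext := tEXT tEXL kit
  have num := tNUM ext
  have ten := tTEN kit ext tTT
  have neg := tNEG tPOL
  have wrg := tWRG (tWRO kit) tTT ext num
  have wed := tWED tMIN wrg ext num kit tSCL
  have ref := tREF tSCL kit
  have bs := tBS kit neg ten (tLT kit)
  have sys := tSYS ten kit
  refine by_contra fun c => ?_
  obtain ⟨N, a, s, h⟩ := crm c
  obtain ⟨m, m0, t, t1, e, he, z, hz, t2⟩ := core HS21.st_AUBIN (tPSI tQUO tSCL)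
    (tST1 (tFLD num tSCL) (tSIW num) (tRK num) ref wed bs (tAIC (tTUB ten) ten) sys
      (tDRV tCOE wrg kit) (tDCO tCOE wrg ten kit) ten KC.aGEN KBE.bDER)
    bs (tCHG ten ref (tRIE tEXL) kit) sys (tMOD ten neg kit) (tRK num)
    (tFIB wed tJQ (tPDT neg num tPOL kit) neg tSCL) tRAT (tVAL ten kit) (tEX1 num) (tFIN ext kit)
    KBE.aEF KBE.bFG KBE.bHYP KC.aEQA KC.aDGA KC.aCUA KC.aGMK KC.aTOP (F4.KBM.dk hn hH hN) h
  exact np ⟨m, m0, t, t1, fun c => t2 (c e he z hz)⟩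

/-- Multivectors. -/
theorem inf_L [M.Cpt] {H : M.Fam (Mat n)} (hn : 0 < n) (hH : M.Kae H) (hN : W86.Nef M H)
    (np : ¬Plu M) : {a | ∃ W, Tw M (fun e e' x => La (M.J e e' x)) a W}.Finite :=
  ((finite_Iic n).biUnion fun q _ => inf_k hn hH hN np q).subset fun a ⟨W, w⟩ => by
    obtain ⟨q, hq, s, s1, -⟩ := tLAM n M a W w
    exact mem_biUnion hq ⟨s, s1⟩

end Pool.Agent.Lib.F4P
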