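import Pool.Agent.Lib.NU4.B_ALG
import Pool.Agent.Lib.NU4.B_APS
import Pool.Agent.Lib.NU4.B_B2
import Pool.Agent.Lib.NU4.B_CMP
import Pool.Agent.Lib.NU4.B_EIG
import Pool.Agent.Lib.NU4.B_EV
import Pool.Agent.Lib.NU4.B_EXC
import Pool.Agent.Lib.NU4.B_FK
import Pool.Agent.Lib.NU4.B_HLP
import Pool.Agent.Lib.NU4.B_HLX
import Pool.Agent.Lib.NU4.B_IBP
import Pool.Agent.Lib.NU4.B_INF
import Pool.Agent.Lib.NU4.B_IX0
import Pool.Agent.Lib.NU4.B_KIT
import Pool.Agent.Lib.NU4.B_KV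
import Pool.Agent.Lib.NU4.B_LG
import Pool.Agent.Lib.NU4.B_LIE
import Pool.Agent.Lib.NU4.B_MAIN
import Pool.Agent.Lib.NU4.B_N4H
import Pool.Agent.Lib.NU4.B_NAB
import Pool.Agent.Lib.NU4.B_NIL
import Pool.Agent.Lib.NU4.B_NM
import Pool.Agent.Lib.NU4.B_PB
import Pool.Agent.Lib.NU4.B_PPI
import Pool.Agent.Lib.NU4.B_PQ
import Pool.Agent.Lib.NU4.B_PW
import Pool.Agent.Lib.NU4.B_QEX
import Pool.Agent.Lib.NU4.B_QQL
import Pool.Agent.Lib.NU4.B_R1
import Pool.Agent.Lib.NU4.B_R2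
import Pool.Agent.Lib.NU4.B_RC
import Pool.Agent.Lib.NU4.B_REC
import Pool.Agent.Lib.NU4.B_SG
import Pool.Agent.Lib.NU4.B_SMV
import Pool.Agent.Lib.NU4.B_T3
import Pool.Agent.Lib.NU4.B_VB
import Pool.Agent.Lib.NU4.B_WR
import Pool.Agent.Lib.NU4.B_XS
import Pool.Agent.Lib.NU4.Pa84
import Pool.Agent.Lib.F4H.All
import Pool.Agent.Lib.F4H.B27
import Pool.Agent.Lib.F4P.Ksq

/-! Project f4p: the theorem. -/

namespace Pool.Agent.Lib.F4P

open NU4 in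
theorem both : St_MAIN ∧ F4H.St_S3H :=
  have fk := st_FK
  have kit := st_KIT
  have pw := st_PW
  have alg := st_ALG fk
  have lie := st_LIE fk
  have ibp := st_IBP kit fk pw
  have inf := st_INF kit
  have sg := st_SG kit ibp
  have nmu := st_NMU kit pw
  have smv := st_SMV ibp kit pw lie
  have nab := st_NAB fk lie kit
  have eig := st_EIG lie fk kit
  have exc := st_EXC sg st_EV st_IX0 inf st_HLP (st_KV kit ibp) nmu kit fk
  have r2 := st_R2 fk alg kit inf nmu exc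
  have r1 := st_R1 fk kit inf sg st_APS nmu smv (st_PPI fk kit ibp)
    (st_NIL fk alg lie kit inf nab (st_REC fk lie kit)) (st_CMP fk alg lie kit nab) exc r2
  have rc := st_RC eig lie
  have t3 := st_T3 st_XS st_VB
  have wr := st_WR fk alg lie kit
  ⟨st_MAIN fk st_B2 inf smv rc t3 wr r2
    (st_PQ fk kit st_XS (st_HLX kit) st_QEX nmu sg r1 (st_N4H fk pw lie kit ibp (st_NM kit))
      (st_PB fk lie kit eig st_QQL) (Pa84.pa st_XS st_QQL st_LG)),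
    F4H.st_S3H fk kit st_B2 inf sg st_EV st_IX0 st_HLP (st_HLX kit) nmu smv st_XS st_QEX rc t3 wr⟩

open F4 in
theorem aF4Q : St_F4Q :=
  f4q_of (st_OUZ ZK.zkMain2) both.1 (F4H.nu1_of3 both.2) st_KBM st_FH
    (st_VW IDX.aIDX K3E.bKAN aXP aXT aOS aPT1) K3E.bMER

end Pool.Agent.Lib.F4P
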