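import Pool.Agent.Lib.F4H.Defs
import Pool.Agent.Lib.F4H.Vol38
import Pool.Agent.Lib.KS.SDefs
import Pool.Agent.Lib.HW.Br

/-! Project f4p: numerical dimension at most one in the two languages. -/

open scoped Classical Topology ContDiff ComplexOrder Matrix Manifold
open Set MeasureTheory Complex Filter

noncomputable section

namespace Pool.Agent.Lib.F4P

open Pool.Agent.Lib.SV (E Cells)
open Pool.Agent.Lib.HS32 Pool.Agent.Lib.HS32.Mf Pool.Agent.Lib.F4 Pool.Agent.Lib.F4H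
open Pool.Agent.Lib.HS.BBR Pool.Agent.Lib.RB.R32
open Pool.Agent.Lib.HS (inChart)
open Pool.Agent.Lib.GH (Kaehler)
open Pool.Agent.Lib.HW (CanNef levi)

namespace Nu19

theorem pt {M : Mf 4} {H G : M.Fam (Mat 4)} (hH : M.Met H) (hG : M.Met G) {d : ℝ} (hd : 0 ≤ d)
    (x : M.X) : d ^ 2 / 2 * mx M H G G x ≤ M.dq H (G + d • H) x := by
  obtain ⟨a, L, a0, -, lG, -, h⟩ := V38.pw (hH.ev_pos x) (hG.ev_pos x)
  obtain ⟨b1, b2, b3⟩ := h (M.ev G x)
  have t : M.tr H G x = _ := b1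
  have p : M.ip H G G x = _ := b2
  have q : M.dq H (G + d • H) x = _ := (b3 d hd).1
  have q0 := a0 0
  have q1 := a0 1
  have q2 := a0 2
  have q3 := a0 3
  rw [mx, t, p, q, ← sub_nonneg]
  simp only [Fin.sum_univ_four, Fin.prod_univ_four, lG]
  refine le_of_le_of_eq (?_ : 0 ≤ d ^ 4 + d ^ 3 * (a 0 + a 1 + a 2 + a 3) +
    d * (a 0 * a 1 * a 2 + a 0 * a 1 * a 3 + a 0 * a 2 * a 3 + a 1 * a 2 * a 3) +
    a 0 * a 1 * a 2 * a 3) (by ring)
  positivity

/-- The volume grows at least like the square of `ε` if the square of the class is positive. -/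
theorem k2_of {M : Mf 4} [M.Cpt] {H : M.Fam (Mat 4)} (hH : M.Kae H) (hN : W86.Nef M H) {C : ℝ}
    (h : ∀ ε ∈ Ioc (0 : ℝ) 1, ∫ x, M.dq H (-M.ric H + ε • H) x ∂M.mu H ≤ C * ε ^ 3) :
    k2 M H ≤ 0 := by
  have m := hH.toMet
  have cθ : M.Clo (-M.ric H) := ((mHES 4 M).2.2.2.2.2.2.2.2.1 _ m).neg
  have key : ∀ d ∈ Ioc (0 : ℝ) (1 / 2),
      k2 M H ≤ d * (16 * C - 6 * ∫ x, M.tr H (-M.ric H) x ∂M.mu H) := fun d hd => by
    obtain ⟨w, sw, pw⟩ := hN d hd.1
    have e : M.gE H d w = -M.ric H + d • H + M.hs w := by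
      unfold Mf.gE
      abel
    rw [e] at pw
    have cw := (mHES 4 M).1 w sw
    have cG := (cθ.add (hH.toClo.smul d)).add cw
    have mG : M.Met (-M.ric H + d • H + M.hs w) := ⟨cG.toForm, pw⟩
    have c2 := cθ.add (hH.toClo.smul (2 * d))
    have e2 : -M.ric H + d • H + M.hs w + d • H = -M.ric H + (2 * d) • H + M.hs w := by
      rw [two_mul, add_smul]
      abel
    have i1 := integral_mono ((V38.mx_int m cG.toTen cG.toTen).const_mul (d ^ 2 / 2))
      ((mMU 4 M H m).2.2.2.2.1 ℝ _ ((mINV 4 M H m).1 _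
        (cG.add (hH.toClo.smul d)).toTen).2.2.2.1.continuous) (pt m mG hd.1.le)
    rw [integral_const_mul, e2, mCOH 4 M H _ w m c2 sw, V38.mx_cls d hH cθ cG sw,
      V38.tr_cls d hH cθ sw] at i1
    simp only [V38.mx_comm (S := -M.ric H) (T := -M.ric H + d • H + M.hs w)] at i1
    rw [V38.mx_cls d hH cθ cθ sw] at i1
    have i2 := i1.trans (h (2 * d) ⟨by linarith [hd.1], by linarith [hd.2]⟩)
    have v0 : 0 ≤ (M.mu H).real univ := measureReal_nonneg
    have d0 := hd.1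
    refine le_of_mul_le_mul_left ?_ (show 0 < d ^ 2 / 2 by positivity)
    have v1 : 0 ≤ d ^ 4 * (M.mu H).real univ := by positivity
    unfold k2 Qm
    nlinarith
  have t : Tendsto (fun d : ℝ => d * (16 * C - 6 * ∫ x, M.tr H (-M.ric H) x ∂M.mu H)) (𝓝[>] 0)
      (𝓝 0) := by
    simpa using ((continuous_mul_const _).tendsto (0 : ℝ)).mono_left nhdsWithin_le_nhds
  exact ge_of_tendsto t (mem_of_superset (Ioc_mem_nhdsGT (by norm_num)) key)

theorem herm_eq {n : ℕ} {A B : Mat n} (hA : A.IsHermitian) (hB : B.IsHermitian)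
    (h : ∀ v, nq A v = nq B v) : A = B := by
  have hh := hA.sub hB
  have h0 : ∀ v, star v ⬝ᵥ (A - B) *ᵥ v = 0 := fun v => Complex.ext (by
    rw [Matrix.sub_mulVec, dotProduct_sub, sub_re]
    exact sub_eq_zero.2 (h v)) (hh.im_star_dotProduct_mulVec_self v)
  have p := Matrix.PosSemidef.of_dotProduct_mulVec_nonneg hh fun v => (h0 v).ge
  refine sub_eq_zero.1 (Matrix.ext_of_mulVec_single fun i => ?_)
  rw [(p.dotProduct_mulVec_zero_iff _).1 (h0 _), Matrix.zero_mulVec]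

theorem cells {n : ℕ} (M : Mf n) [M.Cpt] {H : M.Fam (Mat n)} (hH : M.Met H) {r : ℕ}
    (e : Fin r → M.Ch) (B : Fin r → Set (E n)) (he : ∀ k, e k ∈ M.C)
    (h1 : ∀ k, MeasurableSet (B k)) (h2 : ∀ k, B k ⊆ (e k).target)
    (h3 : ∀ y, ∃! k, y ∈ (e k).symm '' B k) {f : M.X → ℝ} (hf : Continuous f) :
    ∫ y, f y ∂M.mu H = ∑ k, ∫ z in B k, (H (e k) z).det.re * f ((e k).symm z) := by
  obtain ⟨-, -, -, -, m5, m6, -⟩ := mMU n M H hH
  have u : ⋃ k, (e k).symm '' B k = univ := eq_univ_of_forall fun y => mem_iUnion.2 (h3 y).exists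
  rw [← setIntegral_univ, ← u, integral_iUnion_fintype (fun k => (m6 _ (he k) _ (h1 k) (h2 k)).1)
    (fun a b hab => disjoint_left.2 fun y ha hb => hab ((h3 y).unique ha hb))
    fun k => (m5 ℝ f hf).integrableOn]
  exact Finset.sum_congr rfl fun k _ => (m6 _ (he k) _ (h1 k) (h2 k)).2.2.1 f

end Nu19

/-- Numerical dimension at most one: the square of the canonical class is not positive. -/
theorem nu19 {X : Type} [TopologicalSpace X] [ChartedSpace (E 4) X] [IsManifold 𝓘(ℂ, E 4) ω X]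
    [CompactSpace X] [T2Space X] [ConnectedSpace X] {G : X → Mat 4} (hG : Kaehler G)
    (hN : CanNef G) {I : Type} [Fintype I] {u : I → Unit → Unit → X → ℂ} {b : I → ℝ}
    (h : KS.NuLe (fun _ => univ) u G b 1) :
    haveI : (mf 4 X).Cpt := ⟨‹_›, ‹_›, ‹_›⟩
    k2 (mf 4 X) (fam G) ≤ 0 := by
  obtain ⟨φ, Θ, r, x, B, C, -, ce, hs, hb⟩ := h
  let M : Mf 4 := mf 4 X
  have cp : M.Cpt := ⟨‹_›, ‹_›, ‹_›⟩
  let c : M.X → M.Ch := chartAt (M := X) (E 4)
  have hc : ∀ x, c x ∈ M.C := HW.ch_mem (X := X)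
  have hm : ∀ x, x ∈ (c x).source := mem_chart_source (M := X) (E 4)
  have hz : ∀ y, c y y ∈ (c y).target := fun y => (c y).map_source (hm y)
  have kH : M.Kae (fam G) := HW.kae hG
  have sg : M.Sm (φ ()) := ((mTR 4 M).2.2.2.1 ℝ _).2.2 fun y =>
    ⟨c y, hc y, hm y, (hs () y trivial).1⟩
  have e0 : ∀ y, fam G (c y) (c y y) = G y := fun y => by
    have := (mTR 4 M).2.2.1 _ (hc y) y (hm y)
    rw [Mf.J] at this
    simp only [fam, (c y).left_inv (hm y)]
    erw [this]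
    simp
  have cT : M.Clo (-M.ric (fam G)) := ((mHES 4 M).2.2.2.2.2.2.2.2.1 _ kH.toMet).neg
  have cg := (mHES 4 M).1 _ sg
  have et : ∀ y, (-M.ric (fam G) + M.hs (φ ())) (c y) (c y y) = Θ y := fun y => by
    have s1 := sg _ (hc y) _ (hz y)
    have sl := ((mCOF 4 _ _ (kH.sm _ (hc y) _ (hz y))).2.2.2.2.2
      (Mf.AllOn.ev kH.pos (hc y) (hz y))).2.1
    refine Nu19.herm_eq ((cT.add cg).herm _ (hc y) _ (hz y)) (hs () y trivial).2.1 fun v => ?_
    refine Eq.trans (congrArg (nq · v) ?_)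
      ((HW.levi_eq (s1.add sl) v).symm.trans ((hs () y trivial).2.2 v))
    simp only [ofReal_add]
    refine Eq.trans ?_ (hess_add (cd_ofReal s1) (cd_ofReal sl)).symm
    simp only [Mf.ric, Pi.add_apply, Pi.neg_apply, neg_neg]
    exact add_comm _ _
  refine Nu19.k2_of (C := C) kH (HW.nef hG hN) fun ε hε => le_of_eq_of_le ?_ (hb ε hε)
  have c1 := cT.add (kH.toClo.smul ε)
  obtain ⟨-, -, i3, i4, -⟩ := (mINV 4 _ _ kH.toMet).1 _ (c1.add cg).toTen
  rw [← mCOH 4 M _ _ _ kH.toMet c1 sg]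
  refine (Nu19.cells M kH.toMet (fun k => c (x k)) B (fun k => hc _) ce.meas ce.sub
    ce.part i4.continuous).trans (Finset.sum_congr rfl fun k _ => integral_congr_ae
      (ae_of_all _ fun z => ?_))
  obtain ⟨y, hy⟩ : ∃ y : X, (chartAt (E 4) (x k)).symm z = y := ⟨_, rfl⟩
  have a1 : (-M.ric (fam G) + ε • fam G + M.hs (φ ())) (c y) (c y y) = (Θ + ε • G) y := by
    rw [add_right_comm, Pi.add_apply, Pi.add_apply, et, Pi.smul_apply, Pi.smul_apply, e0]
    rfl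
  have a3 : ((Θ + ε • G) y).IsHermitian := a1 ▸ (c1.add cg).herm _ (hc y) _ (hz y)
  have a2 := ((i3.at (hc y) (hm y)).trans (congrArg₂ (fun S T : Mat 4 => (S.det / T.det).re) a1
    (e0 y))).trans (BINV.re_div (hG.pos y).1 a3)
  change (inChart G (x k) z).det.re * M.dq (fam G) _ ((chartAt (E 4) (x k)).symm z) = _
  simp only [inChart, BMU.det_chg, hy]
  rw [a2, mul_assoc, mul_div_cancel₀ _ (Mf.pd_det_re (hG.pos y)).ne']

end Pool.Agent.Lib.F4P
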