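import Pool.Agent.Lib.F4G.Blue
import Pool.Agent.Lib.F4.O_REM

/-! Project f4p: the statement and the outer layer. -/

open scoped Classical Topology ContDiff ComplexOrder Matrix Manifold
open Set Filter

noncomputable section

namespace Pool.Agent.Lib.F4P

open Pool.Agent.Lib.SV (E Pluri)
open Pool.Agent.Lib.HS32 Pool.Agent.Lib.GH Pool.Agent.Lib.F4
open Pool.Agent.Lib.HW (CanNef)
open Pool.Agent.Lib.HS.BBR (mf)
open Pool.Agent.Lib.F4G (Plu)

/-- The theorem. -/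
def St_F4P : Prop := ∀ (X : Type) [TopologicalSpace X] [ChartedSpace (E 4) X]
  [IsManifold 𝓘(ℂ, E 4) ω X] [CompactSpace X] [T2Space X] [ConnectedSpace X] (G : X → Mat 4),
  Kaehler G → CanNef G → (∀ ρ ∈ TF 4 X 1 0, ρ = 0) → (∃ σ ∈ TF 4 X 2 0, σ ≠ 0) →
  (∃ m, 0 < m ∧ ∃ s ∈ Pluri 4 X m, s ≠ 0) ∨
    ∃ η ∈ TF 4 X 3 0, ∃ θ ∈ TF 4 X 3 0, LinearIndependent ℂ ![η, θ] ∧
      ∀ x, ¬LinearIndependent ℂ ![η x, θ x]

/-- The theorem on the manifold layer. -/
def St_MP : Prop := ∀ (M : Mf 4) [M.Cpt] (H S : M.Fam (Mat 4)) (V W : M.Fam (E 4)), M.Kae H →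
  W86.Nef M H → (∀ a ≠ 0, ∀ s, H0 M a s → Zr M s) → (∀ ρ, H1 M 0 ρ → Zr M ρ) → H2 M 0 S →
  ¬Zr M S → HT M 1 V → HT M 1 W → (¬Zr M fun e z => wg (V e z) (W e z)) → Plu M

namespace OUT

open G72

variable {X : Type} [TopologicalSpace X] [ChartedSpace (E 4) X] [IsManifold 𝓘(ℂ, E 4) ω X]

/-- The form of degree three of a vector field. -/
def fo (V : (mf 4 X).Fam (E 4)) (y : X) : E 4 [⋀^Fin 3]→ₗ[ℂ] ℂ :=
  m3 (V (chartAt (M := X) (E 4) y) (chartAt (E 4) y y))

theorem m3_inj {u : E 4} (k : m3 (n := 3) u = 0) : u = 0 := by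
  funext i
  have e1 : Matrix.of (Matrix.vecCons u fun l => Pi.single (i.succAbove l) 1) =
      ((1 : Mat 4).updateRow i u).submatrix i.cycleRange.symm id := by
    ext l j
    refine Fin.cases ?_ (fun l => ?_) l
    · simp
    · simp [Matrix.one_apply, Pi.single_apply, eq_comm]
  have := m3_ap (n := 3) u fun l => Pi.single (i.succAbove l) 1
  rw [k, e1, Matrix.det_permute, ← Matrix.cramer_transpose_apply, Matrix.transpose_one,
    Matrix.cramer_one] at this
  exact (mul_eq_zero.1 this.symm).resolve_left (by simp)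

theorem m3_lin (s t : ℂ) (u v : E 4) :
    m3 (n := 3) (s • u + t • v) = s • m3 (n := 3) u + t • m3 (n := 3) v := by
  simp only [m3, map_add, map_smul]

theorem fo_mem {V : (mf 4 X).Fam (E 4)} (h : HT (mf 4 X) 1 V) : fo V ∈ TF 4 X 3 0 := by
  intro y v
  let M : Mf 4 := mf 4 X
  let c : M.X → M.Ch := chartAt (M := X) (E 4)
  have hc : ∀ x, c x ∈ M.C := HW.ch_mem (X := X)
  have hs : ∀ x, x ∈ (c x).source := mem_chart_source (M := X) (E 4)
  have law : M.Ov fun e e' x => ∀ v, m3 (n := 3) (V e' (e' x)) v =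
      m3 (n := 3) (V e (e x)) (fun i => M.J e e' x *ᵥ v i) := fun e he e' he' x hx hx' v => by
    set J := M.J e e' x with hJ
    have e1 : m3 (n := 3) (J *ᵥ V e' (e' x)) (fun i => J *ᵥ v i) =
        m3 (n := 3) (V e' (e' x)) v * J.det := by
      rw [m3_ap, m3_ap, ← Matrix.det_transpose J, ← Matrix.det_mul]
      refine congrArg _ (Matrix.ext fun l j => Fin.cases ?_ (fun l => ?_) l) <;>
        simp [Matrix.mul_apply, Matrix.mulVec, dotProduct, mul_comm]
    rw [h.cmp e he e' he' x hx hx', m3, map_smul, zpow_one] at e1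
    refine mul_right_cancel₀ ((mTR _ _).2.1 e he e' he' x hx hx').2.1 (e1.symm.trans ?_)
    rw [mul_comm]
    rfl
  have e1 : ∀ u : E 4, m3 (n := 3) u v = ∑ j, u j *
      ((-1) ^ (j : ℕ) * ((Matrix.of v).submatrix id j.succAbove).det) := fun u => by
    rw [m3_ap, Matrix.det_succ_row_zero]
    exact Finset.sum_congr rfl fun j _ => (mul_assoc _ _ _).trans (mul_left_comm _ _ _)
  refine (DifferentiableAt.fun_sum (u := Finset.univ) fun j _ =>
    (h.hol _ (hc y) _ ((c y).map_source (hs y)) j).self_of_nhds.mul_const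
      ((-1) ^ (j : ℕ) * ((Matrix.of v).submatrix id j.succAbove).det)).congr_of_eventuallyEq ?_
  filter_upwards [(c y).open_target.mem_nhds ((c y).map_source (hs y))] with w hw
  have h4 := law _ (hc ((c y).symm w)) _ (hc y) _ (hs _) ((c y).map_target hw) v
  simp only [Mf.J, (c y).right_inv hw] at h4
  rw [pow_zero, mul_one, ← e1]
  exact h4.symm

theorem dep {u v : E 4} (h : wg u v = 0) : ∃ s t : ℂ, s • u + t • v = 0 ∧ ¬(s = 0 ∧ t = 0) := by
  by_cases u0 : u = 0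
  · exact ⟨1, 0, by simp [u0], by simp⟩
  obtain ⟨i, hi⟩ := Function.ne_iff.1 u0
  refine ⟨-v i, u i, funext fun j => ?_, fun c => hi c.2⟩
  have := congrFun (congrFun h i) j
  simp only [wg, Matrix.of_apply, Matrix.zero_apply] at this
  simp only [Pi.add_apply, Pi.smul_apply, smul_eq_mul, Pi.zero_apply]
  linear_combination this

theorem pen {V W : (mf 4 X).Fam (E 4)} (hV : HT (mf 4 X) 1 V) (hW : HT (mf 4 X) 1 W)
    (hI : Ind (mf 4 X) V W) (h : Zr (mf 4 X) fun e z => wg (V e z) (W e z)) :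
    LinearIndependent ℂ ![fo V, fo W] ∧ ∀ x, ¬LinearIndependent ℂ ![fo V x, fo W x] := by
  let M : Mf 4 := mf 4 X
  let c : M.X → M.Ch := chartAt (M := X) (E 4)
  have hc : ∀ x, c x ∈ M.C := HW.ch_mem (X := X)
  have hs : ∀ x, x ∈ (c x).source := mem_chart_source (M := X) (E 4)
  refine ⟨LinearIndependent.pair_iff.2 fun s t k => hI s t fun e he z hz => ?_, fun x k => ?_⟩
  · have k1 := m3_inj ((m3_lin s t _ _).trans (congrFun k (e.symm z)))
    have k2 := hV.cmp e he _ (hc _) _ (e.map_target hz) (hs _)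
    have k3 := hW.cmp e he _ (hc _) _ (e.map_target hz) (hs _)
    have k4 := congrArg (M.J e (c (e.symm z)) (e.symm z) *ᵥ ·) k1
    simp only [Matrix.mulVec_add, Matrix.mulVec_smul, Matrix.mulVec_zero] at k4
    beta_reduce at k2 k3
    rw [e.right_inv hz, zpow_one] at k2 k3
    refine (smul_eq_zero.1 ?_).resolve_left
      ((mTR _ _).2.1 e he _ (hc _) _ (e.map_target hz) (hs _)).2.1
    rw [smul_add, smul_comm _ s, smul_comm _ t]
    exact (congrArg₂ (fun a b => s • a + t • b) k2 k3).symm.trans k4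
  · obtain ⟨s, t, k1, k2⟩ := dep (h _ (hc x) _ ((c x).map_source (hs x)))
    exact k2 (LinearIndependent.pair_iff.1 k s t ((m3_lin s t _ _).symm.trans
      ((congrArg _ k1).trans (map_zero _))))

end OUT

theorem f4p_of (hM : St_MP) (hK : St_KBM) (hF : St_FH) (hV : St_VW) (hZ : St_Z0)
    (hE : K3E.St_MER) : St_F4P := by
  intro X _ _ _ _ _ _ G hG hN h1 ⟨σ, s1, s2⟩
  have : (mf 4 X).Cpt := ⟨‹_›, ‹_›, ‹_›⟩
  refine or_iff_not_imp_left.2 fun hP => ?_
  have hH := HW.kae hG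
  have hN' := HW.nef hG hN
  have no : ¬Plu (mf 4 X) := fun ⟨m, m0, t, t1, t2⟩ =>
    hP ⟨m, m0, (hE 4 X).2 m t t1 (by_contra fun c => t2 fun e he z hz =>
      by_contra fun d => c ⟨e, he, z, hz, d⟩)⟩
  have q0 : ∀ ρ, H1 (mf 4 X) 0 ρ → Zr (mf 4 X) ρ := fun ρ h => by_contra fun c =>
    (G72.t1 (a := 0) h c).elim fun t ht => ht.2.1 (h1 t ht.1)
  obtain ⟨x₀⟩ : Nonempty X := inferInstance
  obtain ⟨S, V, W, a1, a2, a3, a4, a5⟩ := hV _ _ hH
    (by_contra fun c => no (hK 4 _ _ four_pos hH hN' c)) q0 (hF 4 X _ 2 2 rfl σ s1 s2)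
    (hF 4 X _ 0 4 rfl (fun _ => AlternatingMap.constOfIsEmpty ℂ _ _ 1) (fun x v => by simp)
      fun c => one_ne_zero (α := ℂ) (congrArg (fun β => β x₀ 0) c))
  exact ⟨_, OUT.fo_mem a3, _, OUT.fo_mem a4, OUT.pen a3 a4 a5 (by_contra fun c =>
    no (hM _ _ S V W hH hN' (hZ 4 _ _ hH.toMet (fun ε hε =>
    (hN' ε hε.1).imp fun w hw => ⟨hw.1, fun e he z hz => by
      simpa [Mf.gE] using (hw.2 e he z hz).posSemidef⟩)
    fun m m0 t t1 => by_contra fun c => no ⟨m, m0, t, t1, c⟩) q0 a1 a2 a3 a4 c))⟩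

end Pool.Agent.Lib.F4P
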