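import Pool.Agent.Lib.HW.SDefs

/-! Definition used in the statement: the square of the canonical class. -/

open scoped Matrix
open MeasureTheory

noncomputable section

namespace Pool.Agent.Lib.F4P

open Pool.Agent.Lib.SV Pool.Agent.Lib.HS Pool.Agent.Lib.HW

variable {n : ℕ} {X : Type} [TopologicalSpace X] [ChartedSpace (E n) X]

/-- The number `K ^ 2 · ω ^ (n - 2)` is positive: `Θ` is the curvature form of the metric
`1 / det G` on `K`, and the integrand is `Θ ∧ Θ ∧ ω ^ (n - 2)` up to a positive constant. -/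
def KSq (G : X → Mat n) : Prop :=
  ∃ (Θ : X → Mat n) (r : ℕ) (x : Fin r → X) (B : Fin r → Set (E n)), Cells x B ∧
    (∀ y, (Θ y).IsHermitian ∧ ∀ v, levi (fun z => Real.log (inChart G y z).det.re)
      (chartAt (E n) y y) v = (star v ⬝ᵥ Θ y *ᵥ v).re) ∧
    0 < ∑ k, ∫ z in B k, (inChart G (x k) z).det.re *
      (fun A : Mat n => A.trace.re ^ 2 - (A * A).trace.re)
        ((G ((chartAt (E n) (x k)).symm z))⁻¹ * Θ ((chartAt (E n) (x k)).symm z))

end Pool.Agent.Lib.F4P
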